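import Mathlib

set_option autoImplicit false

namespace Pool.Agent.Lib.MP_aceab8_an

open scoped RealInnerProductSpace

/-- Euclidean three-space. -/
abbrev Space : Type := EuclideanSpace ℝ (Fin 3)

/-- The points `p 0, p 1, p 2, p 3` are the vertices of a regular tetrahedron: all the distances
between two of them are equal, and positive. -/
def IsRegularTetrahedron (p : Fin 4 → Space) : Prop :=
  ∃ a : ℝ, 0 < a ∧ ∀ i j : Fin 4, i ≠ j → dist (p i) (p j) = a

/-- The solid tetrahedron with vertices `p`. -/
def solid (p : Fin 4 → Space) : Set Space := convexHull ℝ (Set.range p)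

/-- The (closed) face of the tetrahedron opposite to the vertex `p i`. -/
def face (p : Fin 4 → Space) (i : Fin 4) : Set Space := convexHull ℝ (p '' {j | j ≠ i})

/-- `m` is a unit normal of the face opposite to the vertex `p i`. -/
def IsUnitNormal (p : Fin 4 → Space) (i : Fin 4) (m : Space) : Prop :=
  ‖m‖ = 1 ∧ ∀ j k : Fin 4, j ≠ i → k ≠ i → ⟪m, p j - p k⟫ = 0

/-- A billiard trajectory in the tetrahedron with vertices `p`, from time `0` on. -/
structure Trajectory (p : Fin 4 → Space) where
  /-- `pos 0` is the initial point and `pos k`, `k ≥ 1`, is the point of the `k`-th bounce. -/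
  pos : ℕ → Space
  /-- `vel 0` is the initial velocity and `vel k`, `k ≥ 1`, the velocity after the `k`-th bounce. -/
  vel : ℕ → Space
  /-- `time k` is the time spent between `pos k` and `pos (k + 1)`. -/
  time : ℕ → ℝ
  /-- `faceAt k`, `k ≥ 1`, is the face on which the `k`-th bounce takes place (given by the vertex
  opposite to it). -/
  faceAt : ℕ → Fin 4
  /-- the speed is one -/
  speed : ∀ k, ‖vel k‖ = 1
  time_pos : ∀ k, 0 < time k
  /-- straight motion between the bounces -/
  move : ∀ k, pos (k + 1) = pos k + time k • vel k
  /-- between the bounces the point moves in the interior of the tetrahedron -/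
  inside : ∀ k, openSegment ℝ (pos k) (pos (k + 1)) ⊆ interior (solid p)
  /-- each bounce takes place in the relative interior of a face -/
  bounce : ∀ k, pos (k + 1) ∈ intrinsicInterior ℝ (face p (faceAt (k + 1)))
  /-- the reflection law, for a unit normal `m` of the face -/
  reflect : ∀ k, ∃ m : Space, IsUnitNormal p (faceAt (k + 1)) m ∧
    vel (k + 1) = vel k - (2 * ⟪vel k, m⟫) • m

/-- The trajectory returns to its initial point with its initial velocity after `n` bounces, that
is, after the `n`-th bounce and before the next one. -/
def Trajectory.ReturnsAfter {p : Fin 4 → Space} (τ : Trajectory p) (n : ℕ) : Prop :=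
  τ.vel n = τ.vel 0 ∧ ∃ s : ℝ, 0 ≤ s ∧ s < τ.time n ∧ τ.pos n + s • τ.vel n = τ.pos 0

end Pool.Agent.Lib.MP_aceab8_an
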