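import Mathlib
import Pool.Agent.Lib.MP_aceab8_an.Defs

set_option autoImplicit false

namespace Pool.Agent.Lib.MP_aceab8_an

open scoped RealInnerProductSpace

/-- all mutual distances of the four points are `a` -/
def Reg (p : Fin 4 → Space) (a : ℝ) : Prop := 0 < a ∧ ∀ i j : Fin 4, i ≠ j → dist (p i) (p j) = a

lemma polar (x y z t : Space) : ⟪x - y, z - t⟫ =
    (dist x t ^ 2 + dist y z ^ 2 - dist x z ^ 2 - dist y t ^ 2) / 2 := by
  simp only [dist_eq_norm, norm_sub_sq_real, inner_sub_left, inner_sub_right]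
  ring

variable {p : Fin 4 → Space} {a : ℝ}

lemma Reg.dist_sq (h : Reg p a) (i j : Fin 4) :
    dist (p i) (p j) ^ 2 = if i = j then 0 else a ^ 2 := by
  split_ifs with hij
  · rw [hij, dist_self]; norm_num
  · rw [h.2 i j hij]

lemma Reg.inner_eq (h : Reg p a) (i j k l : Fin 4) :
    ⟪p i - p j, p k - p l⟫ = ((if i = l then 0 else a ^ 2) + (if j = k then 0 else a ^ 2) -
      (if i = k then 0 else a ^ 2) - (if j = l then 0 else a ^ 2)) / 2 := by
  rw [polar, h.dist_sq, h.dist_sq, h.dist_sq, h.dist_sq]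

/-- four times the vector from the centre to the vertex `p i` -/
noncomputable def cvec (p : Fin 4 → Space) (i : Fin 4) : Space := ∑ j, (p i - p j)

lemma Reg.inner_cvec (h : Reg p a) (i k l : Fin 4) :
    ⟪cvec p i, p k - p l⟫ = 2 * a ^ 2 * ((if i = k then 1 else 0) - (if i = l then 1 else 0)) := by
  rw [cvec, sum_inner]
  simp only [h.inner_eq]
  rw [Fin.sum_univ_four]
  fin_cases i <;> fin_cases k <;> fin_cases l <;> simp <;> ring

lemma Reg.inner_cvec_cvec (h : Reg p a) (i j : Fin 4) :
    ⟪cvec p i, cvec p j⟫ = if i = j then 6 * a ^ 2 else -2 * a ^ 2 := by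
  have h1 : cvec p j = ∑ l, (p j - p l) := rfl
  rw [h1, inner_sum]
  simp only [h.inner_cvec]
  rw [Fin.sum_univ_four]
  fin_cases i <;> fin_cases j <;> simp <;> ring

lemma cvec_sum : ∑ i, cvec p i = 0 := by
  simp only [cvec, Finset.sum_sub_distrib]
  rw [Finset.sum_comm, sub_self]

lemma Reg.cvec_ne (h : Reg p a) (i : Fin 4) : cvec p i ≠ 0 := by
  intro h0
  have h1 := h.inner_cvec_cvec i i
  rw [h0, inner_zero_left, if_pos rfl] at h1
  have := h.1
  have h2 : 0 < 6 * a ^ 2 := by positivity
  linarith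

/-- a vector orthogonal to all edges vanishes -/
lemma Reg.eq_zero (h : Reg p a) (z : Space) (hz : ∀ j k, ⟪z, p j - p k⟫ = 0) : z = 0 := by
  have ha := h.1
  have ha2 : a ^ 2 ≠ 0 := by positivity
  have hli : LinearIndependent ℝ (fun j : Fin 3 => p j.succ - p 0) := by
    rw [Fintype.linearIndependent_iff]
    intro g hg
    rw [Fin.sum_univ_three] at hg
    have e : ∀ i : Fin 4, ⟪p i - p 0, g 0 • (p (Fin.succ 0) - p 0) + g 1 • (p (Fin.succ 1) - p 0) +
        g 2 • (p (Fin.succ 2) - p 0)⟫ = 0 := by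
      intro i; rw [hg, inner_zero_right]
    simp only [inner_add_right, inner_smul_right, h.inner_eq] at e
    have e1 := e 1
    have e2 := e 2
    have e3 := e 3
    simp [Fin.ext_iff] at e1 e2 e3
    have f1 : 2 * g 0 + g 1 + g 2 = 0 := by
      have : a ^ 2 * (2 * g 0 + g 1 + g 2) = 0 := by linarith
      exact (mul_eq_zero.1 this).resolve_left ha2
    have f2 : g 0 + 2 * g 1 + g 2 = 0 := by
      have : a ^ 2 * (g 0 + 2 * g 1 + g 2) = 0 := by linarith
      exact (mul_eq_zero.1 this).resolve_left ha2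
    have f3 : g 0 + g 1 + 2 * g 2 = 0 := by
      have : a ^ 2 * (g 0 + g 1 + 2 * g 2) = 0 := by linarith
      exact (mul_eq_zero.1 this).resolve_left ha2
    intro i
    fin_cases i <;> simp <;> linarith
  have hspan := hli.span_eq_top_of_card_eq_finrank' (by simp)
  have hz2 : z ∈ (⊤ : Submodule ℝ Space) := trivial
  rw [← hspan] at hz2
  have hz3 : ∀ y ∈ Submodule.span ℝ (Set.range (fun j : Fin 3 => p j.succ - p 0)), ⟪z, y⟫ = 0 := by
    intro y hy
    induction hy using Submodule.span_induction with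
    | mem y hy => obtain ⟨j, rfl⟩ := hy; exact hz _ _
    | zero => exact inner_zero_right _
    | add y y' _ _ h1 h2 => rw [inner_add_right, h1, h2, add_zero]
    | smul c y _ h1 => rw [inner_smul_right, h1, mul_zero]
  exact inner_self_eq_zero.1 (hz3 z hz2)

/-- unit normals are multiples of `cvec` -/
lemma Reg.normal_eq (h : Reg p a) (i : Fin 4) (m : Space) (hm : IsUnitNormal p i m) :
    ∃ c : ℝ, m = c • cvec p i ∧ c ^ 2 * (6 * a ^ 2) = 1 := by
  have ha := h.1
  have ha2 : (6 * a ^ 2 : ℝ) ≠ 0 := by positivity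
  set c : ℝ := ⟪m, cvec p i⟫ / (6 * a ^ 2) with hc
  have h1 : m - c • cvec p i = 0 := by
    apply h.eq_zero
    have hA : ∀ j k, j ≠ i → k ≠ i → ⟪m - c • cvec p i, p j - p k⟫ = 0 := by
      intro j k hj hk
      rw [inner_sub_left, hm.2 j k hj hk, inner_smul_left, h.inner_cvec, if_neg (Ne.symm hj),
        if_neg (Ne.symm hk)]
      simp
    have hB : ⟪m - c • cvec p i, cvec p i⟫ = 0 := by
      rw [inner_sub_left, inner_smul_left, h.inner_cvec_cvec, if_pos rfl]
      simp only [conj_trivial]
      rw [hc, div_mul_cancel₀ _ ha2, sub_self]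
    have hC : ∀ k, k ≠ i → ⟪m - c • cvec p i, p i - p k⟫ = 0 := by
      intro k hk
      have e1 : ∀ j, j ≠ i → ⟪m - c • cvec p i, p i - p j⟫ = ⟪m - c • cvec p i, p i - p k⟫ := by
        intro j hj
        have e2 : p i - p j = (p i - p k) - (p j - p k) := by abel
        rw [e2, inner_sub_right, hA j k hj hk, sub_zero]
      have e3 : ∑ j, ⟪m - c • cvec p i, p i - p j⟫ = 0 := by
        rw [← inner_sum]; exact hB
      rw [← Finset.add_sum_erase _ _ (Finset.mem_univ i), sub_self, inner_zero_right, zero_add,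
        Finset.sum_congr rfl (fun j hj => e1 j (Finset.ne_of_mem_erase hj)), Finset.sum_const,
        Finset.card_erase_of_mem (Finset.mem_univ i)] at e3
      simpa using e3
    intro j k
    by_cases hj : j = i
    · by_cases hk : k = i
      · rw [hj, hk, sub_self, inner_zero_right]
      · rw [hj]; exact hC k hk
    · by_cases hk : k = i
      · rw [hk, ← neg_sub (p i) (p j), inner_neg_right, hC j hj, neg_zero]
      · exact hA j k hj hk
  have h2 : m = c • cvec p i := sub_eq_zero.1 h1
  refine ⟨c, h2, ?_⟩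
  have h3 : ⟪m, m⟫ = 1 := by rw [real_inner_self_eq_norm_sq, hm.1]; norm_num
  rw [h2, inner_smul_left, inner_smul_right, h.inner_cvec_cvec, if_pos rfl] at h3
  simp only [conj_trivial] at h3
  linarith

/-- the faces do not meet the interior of the tetrahedron -/
lemma Reg.face_disjoint (h : Reg p a) (i : Fin 4) (x : Space) (hx : x ∈ face p i)
    (hx' : x ∈ interior (solid p)) : False := by
  have ha := h.1
  -- the linear functional `y ↦ ⟪cvec p i, y⟫` and its minimum
  obtain ⟨k, hk⟩ : ∃ k : Fin 4, k ≠ i := exists_ne i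
  have hface : ∀ y ∈ face p i, ⟪cvec p i, y⟫ = ⟪cvec p i, p k⟫ := by
    intro y hy
    have hconv : Convex ℝ {y : Space | ⟪cvec p i, y⟫ = ⟪cvec p i, p k⟫} := by
      intro y hy z hz s t hs ht hst
      simp only [Set.mem_ofPred_eq] at hy hz ⊢
      rw [inner_add_right, inner_smul_right, inner_smul_right, hy, hz, ← add_mul, hst, one_mul]
    refine convexHull_min ?_ hconv hy
    rintro _ ⟨j, hj, rfl⟩
    have e := h.inner_cvec i j k
    rw [if_neg (Ne.symm hj), if_neg (Ne.symm hk), sub_self, mul_zero, inner_sub_right] at e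
    simp only [Set.mem_ofPred_eq]
    linarith
  have hsolid : ∀ y ∈ solid p, ⟪cvec p i, p k⟫ ≤ ⟪cvec p i, y⟫ := by
    intro y hy
    have hconv : Convex ℝ {y : Space | ⟪cvec p i, p k⟫ ≤ ⟪cvec p i, y⟫} := by
      intro y hy z hz s t hs ht hst
      simp only [Set.mem_ofPred_eq] at hy hz ⊢
      rw [inner_add_right, inner_smul_right, inner_smul_right]
      have e1 : ⟪cvec p i, p k⟫ = s * ⟪cvec p i, p k⟫ + t * ⟪cvec p i, p k⟫ := by
        rw [← add_mul, hst, one_mul]
      rw [e1]
      gcongr
    refine convexHull_min ?_ hconv hy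
    rintro _ ⟨j, rfl⟩
    have e := h.inner_cvec i j k
    rw [if_neg (Ne.symm hk), inner_sub_right] at e
    simp only [Set.mem_ofPred_eq]
    have e2 : 0 ≤ 2 * a ^ 2 * ((if i = j then 1 else 0) - 0 : ℝ) := by
      split_ifs
      · positivity
      · simp
    linarith
  have hcont : Filter.Tendsto (fun t : ℝ => x - t • cvec p i) (nhds 0) (nhds x) := by
    have : Continuous (fun t : ℝ => x - t • cvec p i) := by fun_prop
    have h2 := this.tendsto 0
    simpa using h2
  have hev := hcont.eventually (mem_interior_iff_mem_nhds.1 hx')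
  obtain ⟨ε, hε, hball⟩ := Metric.eventually_nhds_iff.1 hev
  have h1 := hball (y := ε / 2) (by
    rw [Real.dist_eq, sub_zero, abs_of_pos (by positivity)]; linarith)
  have h2 := hsolid _ h1
  rw [inner_sub_right, inner_smul_right, h.inner_cvec_cvec, if_pos rfl, hface x hx] at h2
  have h3 : 0 < ε / 2 * (6 * a ^ 2) := by positivity
  linarith

/-- a segment with end points on the same face does not contain interior points -/
lemma Reg.segment_face (h : Reg p a) (i : Fin 4) (x y z : Space) (hx : x ∈ face p i)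
    (hy : y ∈ face p i) (hz : z ∈ segment ℝ x y) (hz' : z ∈ interior (solid p)) : False :=
  h.face_disjoint i z ((convex_convexHull ℝ _).segment_subset hx hy hz) hz'

end Pool.Agent.Lib.MP_aceab8_an
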