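import Mathlib

set_option autoImplicit false

namespace Pool.Agent.Lib.MP_aceab8_an

open Matrix

/-- the integral normals of the faces of the standard regular tetrahedron -/
def u : Fin 4 → Fin 3 → ℤ := ![![1, 1, 1], ![1, -1, -1], ![-1, 1, -1], ![-1, -1, 1]]

/-- three times the reflections -/
def A (i : Fin 4) : Matrix (Fin 3) (Fin 3) ℤ := (3 : ℤ) • 1 - (2 : ℤ) • vecMulVec (u i) (u i)

/-- `3 ^ n` times the product of the first `n` reflections -/
def M (f : ℕ → Fin 4) : ℕ → Matrix (Fin 3) (Fin 3) ℤ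
  | 0 => 1
  | n + 1 => A (f (n + 1)) * M f n

lemma det_A (i : Fin 4) : (A i).det = -27 := by
  rw [Matrix.det_fin_three]
  revert i
  decide

lemma A_mul_transpose (i : Fin 4) : A i * (A i)ᵀ = (9 : ℤ) • 1 := by
  revert i
  decide

lemma det_M (f : ℕ → Fin 4) (n : ℕ) : (M f n).det = (-27) ^ n := by
  induction n with
  | zero => simp [M]
  | succ n ih => rw [M, det_mul, det_A, ih]; ring

lemma M_mul_transpose (f : ℕ → Fin 4) (n : ℕ) : M f n * (M f n)ᵀ = (9 ^ n : ℤ) • 1 := by
  induction n with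
  | zero => simp [M]
  | succ n ih =>
    rw [M, transpose_mul, ← Matrix.mul_assoc, Matrix.mul_assoc (A _), ih, mul_smul_comm,
      Matrix.mul_one, smul_mul_assoc, A_mul_transpose, smul_smul, pow_succ]

lemma det_add_identity (X : Matrix (Fin 3) (Fin 3) ℤ) (c : ℤ) :
    (X - c • 1).det + (X + c • 1).det = 2 * X.det + 2 * c ^ 2 * X.trace := by
  simp only [Matrix.det_fin_three, Matrix.trace, Fin.sum_univ_three, Matrix.sub_apply,
    Matrix.add_apply, Matrix.smul_apply, Matrix.one_apply, Matrix.diag_apply, Fin.isValue,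
    smul_eq_mul, Fin.reduceEq, if_true, if_false]
  ring

/-- the trace of an orthogonal matrix of determinant `-1` which has a fixed vector, scaled -/
lemma trace_eq (X : Matrix (Fin 3) (Fin 3) ℤ) (c : ℤ) (hc : 0 < c) (h1 : X * Xᵀ = (c ^ 2) • 1)
    (h2 : X.det = -c ^ 3) (h3 : (X - c • 1).det = 0) : X.trace = c := by
  have h4 : X * (c • 1 + Xᵀ) = c • (X + c • 1) := by
    rw [Matrix.mul_add, h1, smul_add, smul_smul, mul_smul_comm, Matrix.mul_one, sq]
  have h5 := congrArg Matrix.det h4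
  rw [det_mul, det_smul, Fintype.card_fin, h2] at h5
  have h6 : (c • (1 : Matrix (Fin 3) (Fin 3) ℤ) + Xᵀ).det = (X + c • 1).det := by
    rw [← det_transpose, transpose_add, transpose_transpose, transpose_smul, transpose_one,
      add_comm]
  rw [h6] at h5
  have h7 : (X + c • 1).det = 0 := by
    have h8 : (2 * c ^ 3) * (X + c • 1).det = 0 := by linarith
    exact (mul_eq_zero.1 h8).resolve_left (by positivity)
  have h9 := det_add_identity X c
  rw [h3, h7, h2] at h9
  have h10 : (2 * c ^ 2) * (X.trace - c) = 0 := by linarith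
  have h11 := (mul_eq_zero.1 h10).resolve_left (by positivity)
  linarith

/-- the product of the reflections modulo three -/
lemma M_mod (f : ℕ → Fin 4) (n : ℕ) (hf : ∀ k, 1 ≤ k → k ≤ n → f k ≠ f (k + 1)) :
    (M f (n + 1)).map (Int.cast : ℤ → ZMod 3) =
      ((-1 : ZMod 3) ^ n) • vecMulVec (fun k => (u (f (n + 1)) k : ZMod 3))
        (fun k => (u (f 1) k : ZMod 3)) := by
  have hA : ∀ i : Fin 4, (A i).map (Int.cast : ℤ → ZMod 3) =
      vecMulVec (fun k => (u i k : ZMod 3)) (fun k => (u i k : ZMod 3)) := by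
    decide
  have hu : ∀ i j : Fin 4, i ≠ j →
      (fun k => (u i k : ZMod 3)) ⬝ᵥ (fun k => (u j k : ZMod 3)) = -1 := by
    decide
  induction n with
  | zero =>
    simp only [M, Matrix.mul_one, pow_zero, one_smul]
    exact hA _
  | succ n ih =>
    have h1 := ih (fun k hk hk' => hf k hk (by omega))
    have h2 : (M f (n + 1 + 1)).map (Int.cast : ℤ → ZMod 3) =
        (A (f (n + 1 + 1))).map (Int.cast : ℤ → ZMod 3) *
          (M f (n + 1)).map (Int.cast : ℤ → ZMod 3) := by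
      change (A (f (n + 1 + 1)) * M f (n + 1)).map (Int.castRingHom (ZMod 3)) = _
      rw [Matrix.map_mul]
      rfl
    rw [h2, h1, hA, mul_smul_comm, vecMulVec_mul_vecMulVec]
    have h3 := hu (f (n + 1 + 1)) (f (n + 1)) (fun h => hf (n + 1) (by omega) (by omega) h.symm)
    rw [h3]
    rw [pow_succ]
    ext k l
    simp [vecMulVec]

theorem parity (f : ℕ → Fin 4) (n : ℕ) (hn : 1 ≤ n)
    (hf : ∀ k, 1 ≤ k → k < n → f k ≠ f (k + 1)) (hcl : f n ≠ f 1) (a : Fin 3 → ℝ) (ha : a ≠ 0)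
    (hM : ((M f n).map (Int.cast : ℤ → ℝ)) *ᵥ a = ((3 : ℝ) ^ n) • a) : Even n := by
  by_contra hodd
  rw [Nat.not_even_iff_odd] at hodd
  obtain ⟨m, rfl⟩ : ∃ m, n = m + 1 := ⟨n - 1, by omega⟩
  have h1 : ((M f (m + 1)) - ((3 : ℤ) ^ (m + 1)) • (1 : Matrix (Fin 3) (Fin 3) ℤ)).det = 0 := by
    have h2 : (((M f (m + 1)) - ((3 : ℤ) ^ (m + 1)) • (1 : Matrix (Fin 3) (Fin 3) ℤ)).map
        (Int.castRingHom ℝ)).det = 0 := by
      rw [← Matrix.exists_mulVec_eq_zero_iff]
      refine ⟨a, ha, ?_⟩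
      have h3 : ((M f (m + 1)) - ((3 : ℤ) ^ (m + 1)) • (1 : Matrix (Fin 3) (Fin 3) ℤ)).map
        (Int.castRingHom ℝ) = (M f (m + 1)).map (Int.cast : ℤ → ℝ) - ((3 : ℝ) ^ (m + 1)) • 1 := by
        ext k l
        simp only [Matrix.map_apply, Matrix.sub_apply, Matrix.smul_apply, Matrix.one_apply,
          smul_eq_mul]
        split_ifs <;> simp
      rw [h3, Matrix.sub_mulVec, hM, Matrix.smul_mulVec, Matrix.one_mulVec, sub_self]
    rw [← RingHom.mapMatrix_apply, ← RingHom.map_det] at h2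
    simpa using h2
  have h2 : (M f (m + 1)).trace = 3 ^ (m + 1) := by
    refine trace_eq _ _ (by positivity) ?_ ?_ h1
    · rw [M_mul_transpose, ← pow_mul, mul_comm (m + 1) 2, pow_mul]; norm_num
    · rw [det_M, Odd.neg_pow hodd, ← pow_mul, mul_comm (m + 1) 3, pow_mul]; norm_num
  have h3 := M_mod f m (fun k hk hk' => hf k hk (by omega))
  have h4 : (((M f (m + 1)).trace : ℤ) : ZMod 3) =
      ((M f (m + 1)).map (Int.cast : ℤ → ZMod 3)).trace := by
    simp [Matrix.trace]
  rw [h3, h2, trace_smul, trace_vecMulVec] at h4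
  have hu : ∀ i j : Fin 4, i ≠ j →
      (fun k => (u i k : ZMod 3)) ⬝ᵥ (fun k => (u j k : ZMod 3)) = -1 := by
    decide
  rw [hu _ _ hcl] at h4
  have h5 : ((3 ^ (m + 1) : ℤ) : ZMod 3) = 0 := by
    rw [pow_succ]; push_cast
    have : (3 : ZMod 3) = 0 := by decide
    rw [this, mul_zero]
  rw [h5] at h4
  have h6 : Even m := by
    rcases Nat.even_or_odd m with h | h
    · exact h
    · exact absurd hodd (by rw [Nat.not_odd_iff_even]; exact h.add_one)
  rw [h6.neg_one_pow] at h4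
  revert h4
  decide

end Pool.Agent.Lib.MP_aceab8_an
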