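import Mathlib
import Pool.Agent.Lib.MP_aceab8_an.Geom
import Pool.Agent.Lib.MP_aceab8_an.Parity

set_option autoImplicit false

namespace Pool.Agent.Lib.MP_aceab8_an

open scoped RealInnerProductSpace
open Matrix

variable {p : Fin 4 → Space} {a : ℝ}

lemma A0 : A 0 = !![1, -2, -2; -2, 1, -2; -2, -2, 1] := by decide
lemma A1 : A 1 = !![1, 2, 2; 2, 1, -2; 2, -2, 1] := by decide
lemma A2 : A 2 = !![1, 2, -2; 2, 1, 2; -2, 2, 1] := by decide
lemma A3 : A 3 = !![1, -2, 2; -2, 1, 2; 2, 2, 1] := by decide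

/-- coordinates of a vector, in which the normals become `(±1, ±1, ±1)` -/
noncomputable def avec (p : Fin 4 → Space) (v : Space) : Fin 3 → ℝ :=
  ![(⟪cvec p 0, v⟫ + ⟪cvec p 1, v⟫) / 2, (⟪cvec p 0, v⟫ + ⟪cvec p 2, v⟫) / 2,
    (⟪cvec p 0, v⟫ + ⟪cvec p 3, v⟫) / 2]

lemma sum_phi (v : Space) :
    ⟪cvec p 0, v⟫ + ⟪cvec p 1, v⟫ + ⟪cvec p 2, v⟫ + ⟪cvec p 3, v⟫ = 0 := by
  have h := congrArg (fun z : Space => ⟪z, v⟫) (cvec_sum (p := p))
  simp only [Fin.sum_univ_four, inner_add_left, inner_zero_left] at h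
  exact h

lemma Reg.phi_reflect (h : Reg p a) (i : Fin 4) (m : Space) (hm : IsUnitNormal p i m) (v : Space)
    (j : Fin 4) : ⟪cvec p j, v - (2 * ⟪v, m⟫) • m⟫ =
      if j = i then -⟪cvec p i, v⟫ else ⟪cvec p j, v⟫ + 2 / 3 * ⟪cvec p i, v⟫ := by
  obtain ⟨c, rfl, hc⟩ := h.normal_eq i m hm
  rw [inner_sub_right, inner_smul_right, inner_smul_right, inner_smul_right,
    h.inner_cvec_cvec, real_inner_comm (cvec p i) v]
  split_ifs with hji
  · subst hji
    linear_combination (-2 * ⟪cvec p j, v⟫) * hc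
  · linear_combination (2 / 3 * ⟪cvec p i, v⟫) * hc

lemma Reg.avec_reflect (h : Reg p a) (i : Fin 4) (m : Space) (hm : IsUnitNormal p i m)
    (v : Space) : (3 : ℝ) • avec p (v - (2 * ⟪v, m⟫) • m) =
      ((A i).map (Int.cast : ℤ → ℝ)) *ᵥ avec p v := by
  have h0 := sum_phi (p := p) v
  have h3 : ⟪cvec p 3, v⟫ = -(⟪cvec p 0, v⟫ + ⟪cvec p 1, v⟫ + ⟪cvec p 2, v⟫) := by linarith
  have hi : i = 0 ∨ i = 1 ∨ i = 2 ∨ i = 3 := by fin_cases i <;> simp
  rcases hi with rfl | rfl | rfl | rfl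
  · simp only [avec, h.phi_reflect 0 m hm v]
    rw [h3]
    ext k
    fin_cases k <;> simp [A0, Matrix.mulVec, dotProduct, Fin.sum_univ_three] <;> ring
  · simp only [avec, h.phi_reflect 1 m hm v]
    rw [h3]
    ext k
    fin_cases k <;> simp [A1, Matrix.mulVec, dotProduct, Fin.sum_univ_three] <;> ring
  · simp only [avec, h.phi_reflect 2 m hm v]
    rw [h3]
    ext k
    fin_cases k <;> simp [A2, Matrix.mulVec, dotProduct, Fin.sum_univ_three] <;> ring
  · simp only [avec, h.phi_reflect 3 m hm v]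
    rw [h3]
    ext k
    fin_cases k <;> simp [A3, Matrix.mulVec, dotProduct, Fin.sum_univ_three] <;> ring

lemma Reg.avec_ne (h : Reg p a) (v : Space) (hv : v ≠ 0) : avec p v ≠ 0 := by
  intro h0
  apply hv
  have e0 := congrFun h0 0
  have e1 := congrFun h0 1
  have e2 := congrFun h0 2
  simp only [avec, Matrix.cons_val_zero, Matrix.cons_val_one, Pi.zero_apply, Matrix.cons_val]
    at e0 e1 e2
  have hs := sum_phi (p := p) v
  have f : ∀ i, ⟪cvec p i, v⟫ = 0 := by
    intro i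
    fin_cases i
    · change ⟪cvec p 0, v⟫ = 0
      linarith
    · change ⟪cvec p 1, v⟫ = 0
      linarith
    · change ⟪cvec p 2, v⟫ = 0
      linarith
    · change ⟪cvec p 3, v⟫ = 0
      linarith
  apply h.eq_zero
  intro j k
  have e : cvec p j - cvec p k = (4 : ℝ) • (p j - p k) := by
    simp only [cvec, Finset.sum_sub_distrib, Finset.sum_const, Finset.card_univ, Fintype.card_fin]
    module
  have e' : ⟪cvec p j - cvec p k, v⟫ = 0 := by rw [inner_sub_left, f, f, sub_zero]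
  rw [e, inner_smul_left, real_inner_comm v] at e'
  simpa using e'

theorem Trajectory.avec_vel (h : Reg p a) (τ : Trajectory p) (n : ℕ) :
    ((M τ.faceAt n).map (Int.cast : ℤ → ℝ)) *ᵥ avec p (τ.vel 0) =
      ((3 : ℝ) ^ n) • avec p (τ.vel n) := by
  induction n with
  | zero => simp [M]
  | succ n ih =>
    obtain ⟨m, hm, hv⟩ := τ.reflect n
    have h1 := h.avec_reflect _ m hm (τ.vel n)
    rw [← hv] at h1
    have h2 : (M τ.faceAt (n + 1)).map (Int.cast : ℤ → ℝ) =
        (A (τ.faceAt (n + 1))).map (Int.cast : ℤ → ℝ) *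
          (M τ.faceAt n).map (Int.cast : ℤ → ℝ) := by
      change (A (τ.faceAt (n + 1)) * M τ.faceAt n).map (Int.castRingHom ℝ) = _
      rw [Matrix.map_mul]
      rfl
    rw [h2, ← Matrix.mulVec_mulVec, ih, Matrix.mulVec_smul, ← h1, smul_smul, pow_succ]

/-- Every periodic billiard trajectory in a regular tetrahedron has an even number of bounces. -/
theorem even_bounces (hp : IsRegularTetrahedron p) (τ : Trajectory p) (n : ℕ)
    (hn : τ.ReturnsAfter n) : Even n := by
  obtain ⟨a, h⟩ := hp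
  have h : Reg p a := h
  rcases Nat.eq_zero_or_pos n with rfl | hn1
  · exact Even.zero
  have hface : ∀ k, 1 ≤ k → τ.pos k ∈ face p (τ.faceAt k) := by
    intro k hk
    obtain ⟨j, rfl⟩ : ∃ j, k = j + 1 := ⟨k - 1, by omega⟩
    exact intrinsicInterior_subset (τ.bounce j)
  have hmid : ∀ k, midpoint ℝ (τ.pos k) (τ.pos (k + 1)) ∈ interior (solid p) := by
    intro k
    refine τ.inside k ?_
    rw [openSegment_eq_image_lineMap]
    exact ⟨1 / 2, by norm_num, by rw [midpoint]; norm_num⟩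
  refine parity τ.faceAt n hn1 ?_ ?_ (avec p (τ.vel 0)) ?_ ?_
  · intro k hk _ heq
    have h1 := hface k hk
    have h2 := hface (k + 1) (by omega)
    rw [← heq] at h2
    exact h.segment_face _ _ _ _ h1 h2 (midpoint_mem_segment _ _) (hmid k)
  · intro heq
    obtain ⟨hv, s, hs0, _, hs⟩ := hn
    have h1 := hface n hn1
    have h2 := hface 1 le_rfl
    rw [← heq] at h2
    have h3 := hmid 0
    rw [τ.move 0] at h3
    have ht := τ.time_pos 0
    refine h.segment_face _ _ _ _ h1 h2 ?_ h3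
    have e1 : τ.pos 1 = τ.pos n + (s + τ.time 0) • τ.vel 0 := by
      rw [τ.move 0, ← hs, hv, add_smul, add_assoc]
    have e2 : midpoint ℝ (τ.pos 0) (τ.pos 0 + τ.time 0 • τ.vel 0) =
        τ.pos n + (s + τ.time 0 / 2) • τ.vel 0 := by
      rw [midpoint_eq_smul_add, ← hs, hv, invOf_eq_inv]
      module
    rw [e1, e2, segment_eq_image_lineMap]
    have hpos : 0 < s + τ.time 0 := by linarith
    refine ⟨(s + τ.time 0 / 2) / (s + τ.time 0), ⟨by positivity, ?_⟩, ?_⟩
    · rw [div_le_one hpos]; linarith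
    · rw [AffineMap.lineMap_apply_module']
      have e3 : (s + τ.time 0 / 2) / (s + τ.time 0) * (s + τ.time 0) = s + τ.time 0 / 2 :=
        div_mul_cancel₀ _ hpos.ne'
      rw [add_sub_cancel_left, smul_smul, e3, add_comm]
  · apply h.avec_ne
    intro h0
    have := τ.speed 0
    rw [h0, norm_zero] at this
    norm_num at this
  · rw [τ.avec_vel h n, hn.1]

end Pool.Agent.Lib.MP_aceab8_an
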